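import Pool.Agent.C4D.FourFinal

/-!
# Graphs without induced diamond
-/

set_option autoImplicit false
set_option linter.unusedSectionVars false

open Finset

namespace Pool.Agent.C4D

/-- the diamond: `K₄` minus one edge -/
def diamond : SimpleGraph (Fin 4) := (⊤ : SimpleGraph (Fin 4)).deleteEdges {s(0, 1)}

/-- common neighbours of adjacent vertices are adjacent -/
def NoDia {V : Type*} (G : SimpleGraph V) : Prop :=
  ∀ x y u w : V, G.Adj x y → u ≠ w → G.Adj x u → G.Adj x w → G.Adj y u → G.Adj y w → G.Adj u w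

lemma noDia_of {V : Type*} {G : SimpleGraph V} (h : IsEmpty (diamond ↪g G)) : NoDia G := by
  intro x y u w hxy huw hxu hxw hyu hyw
  by_contra hadj
  refine h.false ⟨⟨![u, w, x, y], ?_⟩, ?_⟩
  · intro a b hab
    have h1 := hxu.ne
    have h2 := hxw.ne
    have h3 := hyu.ne
    have h4 := hyw.ne
    have h5 := hxy.ne
    fin_cases a <;> fin_cases b <;> simp_all
  · intro a b
    have e1 := hxu.symm
    have e2 := hxw.symm
    have e3 := hyu.symm
    have e4 := hyw.symm
    have e5 := hxy.symm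
    have e6 : ¬ G.Adj w u := fun h => hadj h.symm
    have e7 : ∀ z : V, ¬ G.Adj z z := G.loopless.irrefl
    unfold diamond
    show G.Adj (![u, w, x, y] a) (![u, w, x, y] b) ↔ _
    fin_cases a <;> fin_cases b <;> simp_all [SimpleGraph.deleteEdges_adj]

variable {V : Type*} [DecidableEq V] {G : SimpleGraph V} [DecidableRel G.Adj]

/-- degrees inside a neighbourhood -/
lemma dia_deg (hG : NoDia G) {w : ℕ} (hw : ClLe G w) {v : V} {A : Finset V} (hA : ∀ x ∈ A, G.Adj v x) {x : V}
    (hx : x ∈ A) : (A.filter (G.Adj x)).card + 2 ≤ w := by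
  have h1 : x ∉ A.filter (G.Adj x) := fun h => G.loopless.irrefl x (Finset.mem_filter.1 h).2
  have h2 : v ∉ insert x (A.filter (G.Adj x)) := by
    rw [Finset.mem_insert]
    rintro (h | h)
    · exact G.loopless.irrefl v (by
        have := hA x hx
        rwa [← h] at this)
    · exact G.loopless.irrefl v (hA v (Finset.mem_filter.1 h).1)
  have h3 := hw (insert v (insert x (A.filter (G.Adj x)))) (by
    rw [Finset.coe_insert, Finset.coe_insert, SimpleGraph.isClique_insert, SimpleGraph.isClique_insert]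
    refine ⟨⟨?_, ?_⟩, ?_⟩
    · intro u hu u' hu' huu
      have a1 := Finset.mem_filter.1 (Finset.mem_coe.1 hu)
      have a2 := Finset.mem_filter.1 (Finset.mem_coe.1 hu')
      exact hG v x u u' (hA x hx) huu (hA u a1.1) (hA u' a2.1) a1.2 a2.2
    · intro u hu _
      exact (Finset.mem_filter.1 (Finset.mem_coe.1 hu)).2
    · intro u hu _
      rcases Set.mem_insert_iff.1 hu with h | h
      · rw [h]
        exact hA x hx
      · exact hA u (Finset.mem_filter.1 (Finset.mem_coe.1 h)).1)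
  rw [Finset.card_insert_of_notMem h2, Finset.card_insert_of_notMem h1] at h3
  omega

/-- covering by the closed neighbourhoods of a maximal independent set -/
lemma cover_le (B : Finset V) {I : Finset V} (hIB : I ⊆ B) (hI : Ind G I)
    (hmax : ∀ K ⊆ B, Ind G K → K.card ≤ I.card) {t : ℕ}
    (ht : ∀ x ∈ B, (B.filter (G.Adj x)).card + 1 ≤ t) : B.card ≤ I.card * t := by
  have hcov : B ⊆ I.biUnion (fun x => insert x (B.filter (G.Adj x))) := by
    intro y hy
    rw [Finset.mem_biUnion]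
    by_contra hcon
    push Not at hcon
    have hyI : y ∉ I := fun h => hcon y h (Finset.mem_insert_self _ _)
    have h1 := hmax (insert y I) (Finset.insert_subset hy hIB) (hI.insert (fun z hz hadj =>
      hcon z hz (Finset.mem_insert_of_mem (Finset.mem_filter.2 ⟨hy, hadj.symm⟩))))
    rw [Finset.card_insert_of_notMem hyI] at h1
    omega
  refine (Finset.card_le_card hcov).trans (Finset.card_biUnion_le_card_mul _ _ _ (fun x hx => ?_))
  exact (Finset.card_insert_le _ _).trans (ht x (hIB hx))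

/-- degrees -/
lemma dia_Delta (hG : NoDia G) {w a : ℕ} (hw : ClLe G w) (ha : ∀ K : Finset V, Ind G K → K.card ≤ a)
    (U : Finset V) (v : V) : (U.filter (G.Adj v)).card ≤ a * w := by
  obtain ⟨I, hIm, hImax⟩ := Finset.exists_max_image (fam G (U.filter (G.Adj v))) Finset.card
    ⟨∅, mem_fam.2 ⟨Finset.empty_subset _, Ind_empty⟩⟩
  obtain ⟨hIB, hI⟩ := mem_fam.1 hIm
  have h1 := cover_le (U.filter (G.Adj v)) hIB hI (fun K hK hK' => hImax K (mem_fam.2 ⟨hK, hK'⟩)) (t := w)
    (fun x hx => by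
      have := dia_deg hG hw (v := v) (A := U.filter (G.Adj v)) (fun y hy => (Finset.mem_filter.1 hy).2) hx
      omega)
  exact h1.trans (Nat.mul_le_mul_right w (ha I hI))

/-- sparseness -/
lemma dia_sparse (hG : NoDia G) {w : ℕ} (hw : ClLe G w) (hw1 : 1 ≤ w) {v : V} {A : Finset V}
    (hA : ∀ x ∈ A, G.Adj v x) :
    1 / 3 * (A.card : ℝ) ≤ ∑ x ∈ A, ((1 + 1 / (w : ℝ)) ^ ((A.filter (G.Adj x)).card + 1))⁻¹ := by
  have hw0 : (0 : ℝ) < w := by exact_mod_cast hw1
  have h : ∀ x ∈ A, (1 / 3 : ℝ) ≤ ((1 + 1 / (w : ℝ)) ^ ((A.filter (G.Adj x)).card + 1))⁻¹ := by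
    intro x hx
    have h1 := dia_deg hG hw hA hx
    rw [le_inv_comm₀ (by norm_num) (by positivity)]
    have h2 : (1 + 1 / (w : ℝ)) ≤ Real.exp (1 / w) := by linarith [Real.add_one_le_exp (1 / (w : ℝ))]
    calc (1 + 1 / (w : ℝ)) ^ ((A.filter (G.Adj x)).card + 1) ≤ (1 + 1 / (w : ℝ)) ^ w :=
          pow_le_pow_right₀ (by
            have : 0 ≤ 1 / (w : ℝ) := by positivity
            linarith) (by omega)
      _ ≤ Real.exp (1 / w) ^ w := pow_le_pow_left₀ (by positivity) h2 _
      _ = Real.exp 1 := by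
          rw [← Real.exp_nat_mul]
          congr 1
          field_simp
      _ ≤ 3 := by linarith [Real.exp_one_lt_d9]
      _ = (1 / 3 : ℝ)⁻¹ := by norm_num
  calc 1 / 3 * (A.card : ℝ) = ∑ _x ∈ A, (1 / 3 : ℝ) := by
        rw [Finset.sum_const, nsmul_eq_mul]
        ring
    _ ≤ _ := Finset.sum_le_sum h

/-- first bound -/
lemma dia_one [Fintype V] [Nonempty V] (hG : NoDia G) {w a : ℕ} (hw : ClLe G w) (hw1 : 1 ≤ w) (ha1 : 1 ≤ a)
    (ha : ∀ K : Finset V, Ind G K → K.card ≤ a) :
    (Fintype.card V : ℝ) * Real.log a ≤ 24 * w * (a : ℝ) ^ 2 := by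
  have hw0 : (0 : ℝ) < w := by exact_mod_cast hw1
  have ha0 : (1 : ℝ) ≤ a := by exact_mod_cast ha1
  have hlD : 1 / (w : ℝ) * ((a : ℝ) * w) = a := by
    field_simp
  have key := hc_sparse (G := G) (l := 1 / (w : ℝ)) (D := (a : ℝ) * w) (c := 1 / 3) (by positivity)
    (by rw [div_le_one hw0]; exact_mod_cast hw1) (by rw [hlD]; exact ha0) (by norm_num) (by norm_num)
    Finset.univ (fun v _ => by exact_mod_cast dia_Delta hG hw ha Finset.univ v)
    (fun v _ A hA => dia_sparse hG hw hw1 (v := v) (fun x hx => (Finset.mem_filter.1 (hA hx)).2)) (a := a)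
    (fun K _ hK => ha K hK)
  rw [hlD, Finset.card_univ] at key
  nlinarith

/-- most degrees are small -/
lemma dia_cherry [Fintype V] (hG : NoDia G) {w a : ℕ} (hw : ClLe G w) (ha1 : 1 ≤ a)
    (ha : ∀ K : Finset V, Ind G K → K.card ≤ a) {s : ℝ} (hs : 2 * (w : ℝ) ≤ s)
    (hs2 : 4 * (Fintype.card V : ℝ) * a ≤ s ^ 2) :
    2 * ((Finset.univ : Finset V).filter (fun x => s < ((Finset.univ.filter (G.Adj x)).card : ℝ))).card ≤
      Fintype.card V := by
  set n := Fintype.card V with hn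
  set B := (Finset.univ : Finset V).filter (fun x => s < ((Finset.univ.filter (G.Adj x)).card : ℝ)) with hB
  rcases Nat.eq_zero_or_pos n with h0 | hnpos
  · have : B.card ≤ n := by
      rw [hn, ← Finset.card_univ]
      exact Finset.card_filter_le _ _
    omega
  -- the number of cherries
  have hub : ∑ u : V, ∑ x : V, ∑ y : V, (if (G.Adj u x ∧ G.Adj u y) ∧ (x ≠ y ∧ ¬ G.Adj x y) then (1 : ℝ) else 0)
      ≤ n * (n * a) := by
    rw [Finset.sum_comm]
    have h1 : ∀ x : V, ∑ u : V, ∑ y : V,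
        (if (G.Adj u x ∧ G.Adj u y) ∧ (x ≠ y ∧ ¬ G.Adj x y) then (1 : ℝ) else 0) ≤ n * a := by
      intro x
      rw [Finset.sum_comm]
      have h2 : ∀ y : V, ∑ u : V, (if (G.Adj u x ∧ G.Adj u y) ∧ (x ≠ y ∧ ¬ G.Adj x y) then (1 : ℝ) else 0) ≤
          a := by
        intro y
        by_cases hxy : x ≠ y ∧ ¬ G.Adj x y
        · have hc : ∀ u : V, ((G.Adj u x ∧ G.Adj u y) ∧ (x ≠ y ∧ ¬ G.Adj x y)) ↔ (G.Adj u x ∧ G.Adj u y) :=
            fun u => ⟨fun h => h.1, fun h => ⟨h, hxy⟩⟩
          simp only [hc]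
          rw [← Finset.sum_filter, Finset.sum_const, nsmul_eq_mul, mul_one]
          have := ha (Finset.univ.filter (fun u => G.Adj u x ∧ G.Adj u y)) (by
            intro u hu u' hu' huu
            have b1 := (Finset.mem_filter.1 hu).2
            have b2 := (Finset.mem_filter.1 hu').2
            exact hxy.2 (hG u u' x y huu hxy.1 b1.1 b1.2 b2.1 b2.2))
          exact_mod_cast this
        · simp only [hxy, and_false, if_false, Finset.sum_const_zero]
          exact Nat.cast_nonneg a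
      calc _ ≤ ∑ _y : V, (a : ℝ) := Finset.sum_le_sum (fun y _ => h2 y)
        _ = n * a := by rw [Finset.sum_const, nsmul_eq_mul, Finset.card_univ]
    calc _ ≤ ∑ _x : V, ((n : ℝ) * a) := Finset.sum_le_sum (fun x _ => h1 x)
      _ = n * (n * a) := by rw [Finset.sum_const, nsmul_eq_mul, Finset.card_univ]
  have hlb : ∀ u ∈ B, s ^ 2 / 2 ≤ ∑ x : V, ∑ y : V,
      (if (G.Adj u x ∧ G.Adj u y) ∧ (x ≠ y ∧ ¬ G.Adj x y) then (1 : ℝ) else 0) := by
    intro u hu
    have hdu := (Finset.mem_filter.1 hu).2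
    set N := Finset.univ.filter (G.Adj u) with hN
    have h1 : ∀ x ∈ N, (N.card : ℝ) / 2 ≤ ∑ y : V,
        (if (G.Adj u x ∧ G.Adj u y) ∧ (x ≠ y ∧ ¬ G.Adj x y) then (1 : ℝ) else 0) := by
      intro x hx
      have hux : G.Adj u x := (Finset.mem_filter.1 hx).2
      rw [← Finset.sum_filter, Finset.sum_const, nsmul_eq_mul, mul_one]
      have h2 := dia_deg hG hw (v := u) (A := N) (fun y hy => (Finset.mem_filter.1 hy).2) hx
      have h3 : N ⊆ (Finset.univ.filter (fun y => (G.Adj u x ∧ G.Adj u y) ∧ (x ≠ y ∧ ¬ G.Adj x y))) ∪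
          insert x (N.filter (G.Adj x)) := by
        intro y hy
        rw [Finset.mem_union, Finset.mem_filter, Finset.mem_insert, Finset.mem_filter]
        by_cases h4 : y = x
        · exact Or.inr (Or.inl h4)
        · by_cases h5 : G.Adj x y
          · exact Or.inr (Or.inr ⟨hy, h5⟩)
          · exact Or.inl ⟨Finset.mem_univ y, ⟨hux, (Finset.mem_filter.1 hy).2⟩, fun h => h4 h.symm, h5⟩
      have h6 := (Finset.card_le_card h3).trans (Finset.card_union_le _ _)
      have h7 := Finset.card_insert_le x (N.filter (G.Adj x))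
      have h8 : N.card ≤ (Finset.univ.filter
          (fun y => (G.Adj u x ∧ G.Adj u y) ∧ (x ≠ y ∧ ¬ G.Adj x y))).card + w := by omega
      have h9 : (N.card : ℝ) ≤ ((Finset.univ.filter
          (fun y => (G.Adj u x ∧ G.Adj u y) ∧ (x ≠ y ∧ ¬ G.Adj x y))).card : ℝ) + w := by exact_mod_cast h8
      linarith
    have h10 : (N.card : ℝ) * (N.card / 2) ≤ ∑ x : V, ∑ y : V,
        (if (G.Adj u x ∧ G.Adj u y) ∧ (x ≠ y ∧ ¬ G.Adj x y) then (1 : ℝ) else 0) := by
      rw [← nsmul_eq_mul]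
      refine (Finset.card_nsmul_le_sum N _ _ h1).trans ?_
      exact Finset.sum_le_sum_of_subset_of_nonneg (Finset.subset_univ N)
        (fun x _ _ => Finset.sum_nonneg (fun y _ => by split_ifs <;> norm_num))
    have h11 : 0 ≤ s := by
      have : (0 : ℝ) ≤ w := Nat.cast_nonneg w
      linarith
    refine le_trans ?_ h10
    nlinarith
  have h12 : (B.card : ℝ) * (s ^ 2 / 2) ≤ n * (n * a) := by
    rw [← nsmul_eq_mul]
    refine (Finset.card_nsmul_le_sum B _ _ hlb).trans (le_trans ?_ hub)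
    exact Finset.sum_le_sum_of_subset_of_nonneg (Finset.subset_univ B)
      (fun u _ _ => Finset.sum_nonneg (fun x _ => Finset.sum_nonneg (fun y _ => by split_ifs <;> norm_num)))
  have hnr : (0 : ℝ) < n := by exact_mod_cast hnpos
  have har : (0 : ℝ) < a := by exact_mod_cast ha1
  have h13 : (B.card : ℝ) * (2 * n * a) ≤ n * (n * a) := by
    refine le_trans (mul_le_mul_of_nonneg_left ?_ (Nat.cast_nonneg _)) h12
    linarith
  have h14 : 2 * (B.card : ℝ) ≤ n := by
    have h15 : (n * a : ℝ) * (2 * B.card) ≤ (n * a) * n := by nlinarith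
    exact le_of_mul_le_mul_left h15 (by positivity)
  exact_mod_cast h14


/-- second bound -/
lemma dia_two [Fintype V] (hG : NoDia G) {w a : ℕ} (hw : ClLe G w) (hw1 : 1 ≤ w) (ha1 : 1 ≤ a)
    (ha : ∀ K : Finset V, Ind G K → K.card ≤ a) (hn1 : 1 ≤ Fintype.card V)
    (hwn : w ^ 5 ≤ Fintype.card V ^ 2) :
    (Fintype.card V : ℝ) * Real.log (Fintype.card V) ^ 2 ≤ 921600 * (a : ℝ) ^ 3 := by
  set n := Fintype.card V with hn
  have hn1r : (1 : ℝ) ≤ n := by exact_mod_cast hn1
  have hw0 : (1 : ℝ) ≤ w := by exact_mod_cast hw1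
  have ha0 : (1 : ℝ) ≤ a := by exact_mod_cast ha1
  have hwnr : (w : ℝ) ^ 5 ≤ (n : ℝ) ^ 2 := by exact_mod_cast hwn
  have hw2 : (w : ℝ) ^ 2 ≤ n := by
    by_contra hcon
    push Not at hcon
    have h1 : (n : ℝ) * n < (w : ℝ) ^ 2 * (w : ℝ) ^ 2 := mul_lt_mul'' hcon hcon (by linarith) (by linarith)
    have h2 : (w : ℝ) ^ 2 * (w : ℝ) ^ 2 ≤ (w : ℝ) ^ 5 := by
      calc (w : ℝ) ^ 2 * (w : ℝ) ^ 2 = (w : ℝ) ^ 4 := by ring
        _ ≤ (w : ℝ) ^ 5 := pow_le_pow_right₀ hw0 (by norm_num)
    nlinarith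
  set D := Real.sqrt (4 * n * a) with hD
  have hD2 : D ^ 2 = 4 * n * a := Real.sq_sqrt (by positivity)
  have hDw : 2 * (w : ℝ) ≤ D := by
    rw [hD]
    apply Real.le_sqrt_of_sq_le
    nlinarith
  have hD0 : 0 < D := by linarith
  have hUhalf := dia_cherry hG hw ha1 ha hDw hD2.ge
  set U := (Finset.univ : Finset V).filter (fun x => ¬ (D < ((Finset.univ.filter (G.Adj x)).card : ℝ)))
    with hU
  have hUc : (n : ℝ) / 2 ≤ U.card := by
    have h1 := Finset.card_filter_add_card_filter_not (s := (Finset.univ : Finset V))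
      (fun x => D < ((Finset.univ.filter (G.Adj x)).card : ℝ))
    rw [Finset.card_univ] at h1
    have h2 : n ≤ 2 * U.card := by
      rw [hU]
      omega
    have h3 : (n : ℝ) ≤ 2 * U.card := by exact_mod_cast h2
    linarith
  have hdeg : ∀ v ∈ U, ((U.filter (G.Adj v)).card : ℝ) ≤ D := by
    intro v hv
    have h1 := (Finset.mem_filter.1 hv).2
    push Not at h1
    refine le_trans ?_ h1
    exact_mod_cast Finset.card_le_card (Finset.filter_subset_filter _ (Finset.subset_univ U))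
  have key := hc_sparse (G := G) (l := 1 / (w : ℝ)) (D := D) (c := 1 / 3) (by positivity)
    (by rw [div_le_one (by linarith)]; exact hw0) (by
      rw [one_div, inv_mul_eq_div, le_div_iff₀ (by linarith)]
      linarith) (by norm_num) (by norm_num) U hdeg
    (fun v _ A hA => dia_sparse hG hw hw1 (v := v) (fun x hx => (Finset.mem_filter.1 (hA hx)).2)) (a := a)
    (fun K _ hK => ha K hK)
  have hlogn : 0 ≤ Real.log n := Real.log_nonneg hn1r
  have hlog : Real.log n ≤ 10 * Real.log (1 / (w : ℝ) * D) := by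
    have h1 : (n : ℝ) ≤ (1 / (w : ℝ) * D) ^ 10 := by
      have h2 : (1 / (w : ℝ) * D) ^ 10 = (4 * n * a) ^ 5 / ((w : ℝ) ^ 5) ^ 2 := by
        rw [← hD2, one_div, inv_mul_eq_div, div_pow]
        ring
      rw [h2, le_div_iff₀ (by positivity)]
      calc (n : ℝ) * ((w : ℝ) ^ 5) ^ 2 ≤ n * ((n : ℝ) ^ 2) ^ 2 :=
            mul_le_mul_of_nonneg_left (pow_le_pow_left₀ (by positivity) hwnr 2) (by linarith)
        _ = (n : ℝ) ^ 5 := by ring
        _ ≤ (4 * n * a) ^ 5 := pow_le_pow_left₀ (by linarith) (by nlinarith) 5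
    have := Real.log_le_log (by linarith) h1
    rw [Real.log_pow] at this
    push_cast at this
    exact this
  have h1 : (n : ℝ) * Real.log n ≤ 480 * D * a := by
    have h2 : 1 / 3 / 4 * Real.log (1 / (w : ℝ) * D) * ((n : ℝ) / 2) ≤
        1 / 3 / 4 * Real.log (1 / (w : ℝ) * D) * U.card :=
      mul_le_mul_of_nonneg_left hUc (by linarith)
    have h3 : (n : ℝ) * Real.log n ≤ n * (10 * Real.log (1 / (w : ℝ) * D)) :=
      mul_le_mul_of_nonneg_left hlog (by linarith)
    linarith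
  have h2 : ((n : ℝ) * Real.log n) ^ 2 ≤ (480 * D * a) ^ 2 := pow_le_pow_left₀ (by positivity) h1 2
  have h3 : (480 * D * a) ^ 2 = n * (921600 * (a : ℝ) ^ 3) := by
    rw [mul_pow, mul_pow, hD2]
    ring
  rw [h3, mul_pow, sq (n : ℝ), mul_assoc] at h2
  exact le_of_mul_le_mul_left h2 (by linarith)

/-- the final form for the diamond -/
theorem dia_final {V : Type*} [Fintype V] (G : SimpleGraph V) (h : IsEmpty (diamond ↪g G)) :
    (Fintype.card V : ℝ) * Real.log G.indepNum ≤ 24 * G.cliqueNum * (G.indepNum : ℝ) ^ 2 ∧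
    (G.cliqueNum ^ 5 ≤ Fintype.card V ^ 2 →
      (Fintype.card V : ℝ) * Real.log (Fintype.card V) ^ 2 ≤ 921600 * (G.indepNum : ℝ) ^ 3) ∧
    (Fintype.card V : ℝ) * Real.log (Fintype.card V) ^ 2 ≤
      921600 * max (G.indepNum : ℝ) G.cliqueNum ^ 3 := by
  classical
  have hG := noDia_of h
  set n := Fintype.card V with hn
  set a := G.indepNum with ha
  set w := G.cliqueNum with hw
  rcases Nat.eq_zero_or_pos n with h0 | hnpos
  · rw [h0]
    simp only [Nat.cast_zero, zero_mul]
    refine ⟨by positivity, fun _ => by positivity, ?_⟩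
    have : (0 : ℝ) ≤ max (a : ℝ) w := le_max_of_le_left (Nat.cast_nonneg a)
    positivity
  have hInd : ∀ K : Finset V, Ind G K → K.card ≤ a := by
    intro K hK
    apply SimpleGraph.IsIndepSet.card_le_indepNum
    intro x hx y hy _
    exact hK x hx y hy
  have hCl : ClLe G w := fun K hK => SimpleGraph.IsClique.card_le_cliqueNum (tc := hK)
  have hne : Nonempty V := Fintype.card_pos_iff.1 hnpos
  obtain ⟨v⟩ := hne
  haveI : Nonempty V := ⟨v⟩
  have ha1 : 1 ≤ a := by
    have := hInd {v} (Ind_singleton v)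
    rwa [Finset.card_singleton] at this
  have hw1 : 1 ≤ w := by
    have := hCl {v} (by simp)
    rwa [Finset.card_singleton] at this
  have hnr : (1 : ℝ) ≤ n := by exact_mod_cast hnpos
  have ha1r : (1 : ℝ) ≤ a := by exact_mod_cast ha1
  have hw1r : (1 : ℝ) ≤ w := by exact_mod_cast hw1
  have two := fun hwn : w ^ 5 ≤ n ^ 2 => dia_two hG hCl hw1 ha1 hInd hnpos hwn
  refine ⟨dia_one hG hCl hw1 ha1 hInd, two, ?_⟩
  by_cases hwn : w ^ 5 ≤ n ^ 2
  · refine (two hwn).trans ?_
    refine mul_le_mul_of_nonneg_left ?_ (by norm_num)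
    exact pow_le_pow_left₀ (by linarith) (le_max_left _ _) 3
  · push Not at hwn
    have hwnr : (n : ℝ) ^ 2 ≤ (w : ℝ) ^ 5 := by exact_mod_cast hwn.le
    have hln : 0 ≤ Real.log n := Real.log_nonneg hnr
    have h1 : 2 * Real.log n ≤ 5 * Real.log w := by
      have := Real.log_le_log (by positivity) hwnr
      rw [Real.log_pow, Real.log_pow] at this
      push_cast at this
      exact this
    have h2 : (n : ℝ) * Real.exp (Real.log n / 5) ≤ (w : ℝ) ^ 3 := by
      have h3 : (w : ℝ) ^ 3 = Real.exp (3 * Real.log w) := by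
        rw [show (3 : ℝ) * Real.log w = ((3 : ℕ) : ℝ) * Real.log w by norm_num, Real.exp_nat_mul,
          Real.exp_log (by linarith)]
      have h4 : (n : ℝ) * Real.exp (Real.log n / 5) = Real.exp (Real.log n + Real.log n / 5) := by
        rw [Real.exp_add, Real.exp_log (by linarith)]
      rw [h3, h4]
      apply Real.exp_le_exp.2
      linarith
    have h5 := Real.quadratic_le_exp_of_nonneg (show 0 ≤ Real.log n / 5 by positivity)
    have h6 : Real.log n ^ 2 ≤ 50 * Real.exp (Real.log n / 5) := by nlinarith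
    have h7 : (w : ℝ) ^ 3 ≤ max (a : ℝ) w ^ 3 := pow_le_pow_left₀ (by linarith) (le_max_right _ _) 3
    have h8 : (n : ℝ) * Real.log n ^ 2 ≤ n * (50 * Real.exp (Real.log n / 5)) :=
      mul_le_mul_of_nonneg_left h6 (by linarith)
    have h9 : 0 ≤ max (a : ℝ) w ^ 3 := by positivity
    linarith

end Pool.Agent.C4D
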