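import Pool.Agent.C4D.HC

/-!
# Graphs without induced 4-cycle
-/

set_option autoImplicit false
set_option linter.unusedSectionVars false

open Finset

namespace Pool.Agent.C4D

variable {V : Type*} [DecidableEq V] {G : SimpleGraph V} [DecidableRel G.Adj]

/-- common neighbourhoods of non-adjacent vertices are cliques -/
def NoC4 (G : SimpleGraph V) : Prop :=
  ∀ x y u w : V, x ≠ y → ¬ G.Adj x y → u ≠ w → G.Adj x u → G.Adj x w → G.Adj y u → G.Adj y w → G.Adj u w

/-- all cliques have at most `w` elements -/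
def ClLe (G : SimpleGraph V) (w : ℕ) : Prop := ∀ K : Finset V, G.IsClique (K : Set V) → K.card ≤ w

lemma Ind.insert {K : Finset V} (h : Ind G K) {y : V} (hy : ∀ z ∈ K, ¬ G.Adj y z) : Ind G (insert y K) := by
  intro a ha b hb hab
  rcases Finset.mem_insert.1 ha with ha' | ha'
  · rcases Finset.mem_insert.1 hb with hb' | hb'
    · rw [ha', hb'] at hab
      exact G.loopless.irrefl y hab
    · rw [ha'] at hab
      exact hy b hb' hab
  · rcases Finset.mem_insert.1 hb with hb' | hb'
    · rw [hb'] at hab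
      exact hy a ha' hab.symm
    · exact h a ha' b hb' hab

/-- the bound `|B| ≤ a² ω` -/
lemma wagon (hG : NoC4 G) {w : ℕ} (hw : ClLe G w) (B : Finset V) {I : Finset V} (hIB : I ⊆ B) (hI : Ind G I)
    (hmax : ∀ K ⊆ B, Ind G K → K.card ≤ I.card) : B.card ≤ I.card * I.card * w := by
  set Q : V × V → Finset V := fun p => if p.1 = p.2 then B.filter (fun y => ∀ z ∈ I, z ≠ p.1 →
    ¬ G.Adj y z ∧ y ≠ z) else B.filter (fun y => G.Adj p.1 y ∧ G.Adj p.2 y) with hQ
  have hcov : B ⊆ (I ×ˢ I).biUnion Q := by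
    intro y hy
    rw [Finset.mem_biUnion]
    have hne : ∃ x ∈ I, G.Adj y x ∨ y = x := by
      by_contra hcon
      push Not at hcon
      have hyI : y ∉ I := fun h => (hcon y h).2 rfl
      have h1 := hmax (insert y I) (Finset.insert_subset hy hIB) (hI.insert (fun z hz => (hcon z hz).1))
      rw [Finset.card_insert_of_notMem hyI] at h1
      omega
    obtain ⟨x, hx, hyx⟩ := hne
    by_cases hpriv : ∀ z ∈ I, z ≠ x → ¬ G.Adj y z ∧ y ≠ z
    · refine ⟨(x, x), Finset.mem_product.2 ⟨hx, hx⟩, ?_⟩
      simp only [hQ, if_true]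
      exact Finset.mem_filter.2 ⟨hy, hpriv⟩
    · push Not at hpriv
      obtain ⟨z, hz, hzx, hyz⟩ := hpriv
      have hyz' : G.Adj y z ∨ y = z := by
        by_cases h : G.Adj y z
        · exact Or.inl h
        · exact Or.inr (hyz h)
      have hyI : y ∉ I := by
        intro hyI
        rcases hyx with h | h
        · exact hI y hyI x hx h
        · rcases hyz' with h' | h'
          · exact hI y hyI z hz h'
          · exact hzx (h'.symm.trans h)
      have h1 : G.Adj y x := hyx.resolve_right (fun h => hyI (h ▸ hx))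
      have h2 : G.Adj y z := hyz'.resolve_right (fun h => hyI (h ▸ hz))
      refine ⟨(x, z), Finset.mem_product.2 ⟨hx, hz⟩, ?_⟩
      simp only [hQ, if_neg hzx.symm]
      exact Finset.mem_filter.2 ⟨hy, h1.symm, h2.symm⟩
  have hcard : ∀ p ∈ I ×ˢ I, (Q p).card ≤ w := by
    rintro ⟨x, z⟩ hp
    obtain ⟨hx, hz⟩ := Finset.mem_product.1 hp
    simp only at hx hz
    apply hw
    by_cases hxz : x = z
    · subst hxz
      intro u hu v hv huv
      simp only [hQ, if_true, Finset.coe_filter, Set.mem_ofPred_eq] at hu hv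
      by_contra hadj
      have huI : u ∉ I.erase x := fun h => (hu.2 u (Finset.mem_of_mem_erase h) (Finset.ne_of_mem_erase h)).2 rfl
      have hvI : v ∉ I.erase x := fun h => (hv.2 v (Finset.mem_of_mem_erase h) (Finset.ne_of_mem_erase h)).2 rfl
      have huvI : u ∉ insert v (I.erase x) := by
        rw [Finset.mem_insert]
        rintro (h | h)
        · exact huv h
        · exact huI h
      have h0 : Ind G (insert u (insert v (I.erase x))) := by
        refine ((hI.mono (Finset.erase_subset x I)).insert (fun z hz =>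
          (hv.2 z (Finset.mem_of_mem_erase hz) (Finset.ne_of_mem_erase hz)).1)).insert (fun z hz => ?_)
        rcases Finset.mem_insert.1 hz with hz' | hz'
        · rw [hz']
          exact hadj
        · exact (hu.2 z (Finset.mem_of_mem_erase hz') (Finset.ne_of_mem_erase hz')).1
      have h1 := hmax (insert u (insert v (I.erase x)))
        (Finset.insert_subset hu.1 (Finset.insert_subset hv.1 ((Finset.erase_subset _ _).trans hIB))) h0
      rw [Finset.card_insert_of_notMem huvI, Finset.card_insert_of_notMem hvI] at h1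
      have h2 := Finset.card_erase_add_one hx
      omega
    · intro u hu v hv huv
      simp only [hQ, if_neg hxz, Finset.coe_filter, Set.mem_ofPred_eq] at hu hv
      exact hG x z u v hxz (hI x hx z hz) huv hu.2.1 hv.2.1 hu.2.2 hv.2.2
  have h := Finset.card_biUnion_le_card_mul (I ×ˢ I) Q w hcard
  rw [Finset.card_product] at h
  exact (Finset.card_le_card hcov).trans h

/-- Bonferroni -/
lemma bonf (hG : NoC4 G) {w : ℕ} (hw : ClLe G w) (A : Finset V) (I : Finset V) (hI : Ind G I) :
    ∑ x ∈ I, (A.filter (G.Adj x)).card ≤ (I.biUnion (fun x => A.filter (G.Adj x))).card +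
      I.card.choose 2 * w := by
  induction I using Finset.induction_on with
  | empty => simp
  | insert x I hx ih =>
    have hI' : Ind G I := hI.mono (Finset.subset_insert x I)
    have ih' := ih hI'
    rw [Finset.sum_insert hx, Finset.biUnion_insert, Finset.card_insert_of_notMem hx]
    have h1 := Finset.card_union_add_card_inter (A.filter (G.Adj x))
      (I.biUnion (fun x => A.filter (G.Adj x)))
    have h2 : (A.filter (G.Adj x) ∩ I.biUnion (fun x => A.filter (G.Adj x))).card ≤ I.card * w := by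
      rw [Finset.inter_biUnion]
      refine Finset.card_biUnion_le_card_mul _ _ _ (fun y hy => ?_)
      apply hw
      intro u hu v hv huv
      rw [Finset.coe_inter, Finset.coe_filter, Finset.coe_filter] at hu hv
      have hxy : x ≠ y := fun h => hx (h ▸ hy)
      exact hG x y u v hxy (hI x (Finset.mem_insert_self _ _) y (Finset.mem_insert_of_mem hy)) huv
        hu.1.2 hv.1.2 hu.2.2 hv.2.2
    have h3 : (I.card + 1).choose 2 = I.card.choose 2 + I.card := by
      rw [Nat.choose_succ_succ' I.card 1, Nat.choose_one_right, add_comm]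
    rw [h3, add_mul]
    omega

/-- at least half of the vertices of `A` have small degree in `A` -/
lemma half (hG : NoC4 G) {w : ℕ} (hw : ClLe G w) (A : Finset V) {s : ℝ} (hs0 : 0 ≤ s)
    (hs : 5 * w * A.card ≤ s ^ 2) :
    2 * (A.filter (fun x => s < (A.filter (G.Adj x)).card)).card ≤ A.card := by
  by_contra hcon
  push Not at hcon
  set B := A.filter (fun x => s < (A.filter (G.Adj x)).card) with hB
  -- a maximal independent set
  obtain ⟨I, hIm, hImax⟩ := Finset.exists_max_image (fam G B) Finset.card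
    ⟨∅, mem_fam.2 ⟨Finset.empty_subset _, Ind_empty⟩⟩
  obtain ⟨hIB, hI⟩ := mem_fam.1 hIm
  have hW := wagon hG hw B hIB hI (fun K hK hK' => hImax K (mem_fam.2 ⟨hK, hK'⟩))
  have hBA : A.card < 2 * (I.card * I.card * w) := by omega
  -- the least `j` with `|A| ≤ 2 w j²`
  have hex : ∃ j : ℕ, A.card ≤ 2 * w * j ^ 2 := ⟨I.card, by nlinarith⟩
  set j := Nat.find hex with hj
  have hj1 : A.card ≤ 2 * w * j ^ 2 := Nat.find_spec hex
  have hj2 : j ≤ I.card := Nat.find_min' hex (by nlinarith)
  obtain ⟨I', hI', hcI'⟩ := Finset.exists_subset_card_eq hj2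
  have hb := bonf hG hw A I' (hI.mono hI')
  have hApos : 0 < A.card := by
    rcases Nat.eq_zero_or_pos A.card with h0 | h0
    · exfalso
      have : B.card ≤ A.card := Finset.card_filter_le _ _
      omega
    · exact h0
  have hj0 : 1 ≤ j := by
    by_contra h
    have : j = 0 := by omega
    rw [this] at hj1
    simp at hj1
    rw [hj1] at hApos
    simp at hApos
  -- pairs
  have hpairs : 2 * (j.choose 2 * w) ≤ A.card := by
    rcases Nat.lt_or_ge j 2 with h | h
    · have : j = 1 := by omega
      rw [this]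
      simp
    · have hmin : ¬ A.card ≤ 2 * w * (j - 1) ^ 2 := Nat.find_min hex (by omega)
      push Not at hmin
      have h3 : j.choose 2 * 2 = j * (j - 1) := by
        rw [Nat.choose_two_right]
        exact Nat.div_mul_cancel (Nat.even_mul_pred_self j).two_dvd
      obtain ⟨m, hm⟩ : ∃ m, j = m + 2 := ⟨j - 2, by omega⟩
      have h4 : m + 2 - 1 = m + 1 := by omega
      rw [hm, h4] at hmin h3
      rw [hm]
      have h5 : (m + 2) * (m + 1) ≤ 2 * (m + 1) ^ 2 := by nlinarith
      have h6 := Nat.mul_le_mul_right w h5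
      have h7 : 2 * ((m + 2).choose 2 * w) = (m + 2) * (m + 1) * w := by
        rw [← h3]
        ring
      rw [h7]
      have h8 : 2 * (m + 1) ^ 2 * w = 2 * w * (m + 1) ^ 2 := by ring
      omega
  have hsum : (j : ℝ) * s ≤ ∑ x ∈ I', ((A.filter (G.Adj x)).card : ℝ) := by
    rw [← hcI', ← nsmul_eq_mul]
    refine Finset.card_nsmul_le_sum _ _ _ (fun x hx => ?_)
    exact (Finset.mem_filter.1 (hIB (hI' hx))).2.le
  have hun : (I'.biUnion (fun x => A.filter (G.Adj x))).card ≤ A.card :=
    Finset.card_le_card (Finset.biUnion_subset.2 (fun x _ => Finset.filter_subset _ _))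
  rw [hcI'] at hb
  have hb' : 2 * ∑ x ∈ I', (A.filter (G.Adj x)).card ≤ 3 * A.card := by omega
  have hb'' : 2 * ∑ x ∈ I', ((A.filter (G.Adj x)).card : ℝ) ≤ 3 * A.card := by exact_mod_cast hb'
  have h5 : 2 * ((j : ℝ) * s) ≤ 3 * A.card := by linarith
  have hj1' : (A.card : ℝ) ≤ 2 * w * (j : ℝ) ^ 2 := by exact_mod_cast hj1
  have hAr : (0 : ℝ) < A.card := by exact_mod_cast hApos
  have hjr : (0 : ℝ) < j := by exact_mod_cast hj0
  have h6 : (2 * ((j : ℝ) * s)) ^ 2 ≤ (3 * A.card) ^ 2 := pow_le_pow_left₀ (by positivity) h5 2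
  -- 4 j² s² ≤ 9 |A|², 5 w |A| ≤ s², |A| ≤ 2 w j²
  have h7 : 4 * (j : ℝ) ^ 2 * (5 * w * A.card) ≤ 9 * (A.card : ℝ) ^ 2 := by
    have : 4 * (j : ℝ) ^ 2 * (5 * w * A.card) ≤ 4 * (j : ℝ) ^ 2 * s ^ 2 :=
      mul_le_mul_of_nonneg_left hs (by positivity)
    nlinarith
  have h8 : 10 * (A.card : ℝ) ^ 2 ≤ 4 * (j : ℝ) ^ 2 * (5 * w * A.card) := by
    nlinarith
  nlinarith

end Pool.Agent.C4D
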