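import Pool.Agent.C4D.FourMain

/-!
# The bound for graphs without induced 4-cycle: final form
-/

set_option autoImplicit false
set_option linter.unusedSectionVars false

open Finset

namespace Pool.Agent.C4D

lemma noC4_of {V : Type*} {G : SimpleGraph V} (h : IsEmpty (SimpleGraph.cycleGraph 4 ↪g G)) : NoC4 G := by
  intro x y u w hxy hnxy huw hxu hxw hyu hyw
  by_contra hadj
  refine h.false ⟨⟨![x, u, y, w], ?_⟩, ?_⟩
  · intro a b hab
    have h1 := hxu.ne
    have h2 := hxw.ne
    have h3 := hyu.ne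
    have h4 := hyw.ne
    fin_cases a <;> fin_cases b <;> simp_all
  · intro a b
    have hC : ∀ a b : Fin 4, (SimpleGraph.cycleGraph 4).Adj a b ↔ (a.val + b.val) % 2 = 1 := by decide
    rw [hC]
    have e1 := hxu.symm
    have e2 := hxw.symm
    have e3 := hyu.symm
    have e4 := hyw.symm
    have e5 : ¬ G.Adj y x := fun h => hnxy h.symm
    have e6 : ¬ G.Adj w u := fun h => hadj h.symm
    have e7 : ∀ z : V, ¬ G.Adj z z := G.loopless.irrefl
    show G.Adj (![x, u, y, w] a) (![x, u, y, w] b) ↔ _
    fin_cases a <;> fin_cases b <;> simp_all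

/-- `(log x)² ≤ x` for `x ≥ 1` -/
lemma log_sq_le {x : ℝ} (hx : 1 ≤ x) : Real.log x ^ 2 ≤ x := by
  have h0 : 0 ≤ Real.log x := Real.log_nonneg hx
  have h1 := Real.quadratic_le_exp_of_nonneg (show 0 ≤ Real.log x / 2 by linarith)
  have h2 : Real.log x ≤ Real.exp (Real.log x / 2) := by nlinarith [sq_nonneg (Real.log x / 2 - 1)]
  have h3 : Real.exp (Real.log x / 2) ^ 2 = x := by
    rw [← Real.exp_nat_mul]
    push_cast
    rw [show 2 * (Real.log x / 2) = Real.log x by ring, Real.exp_log (by linarith)]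
  calc Real.log x ^ 2 ≤ Real.exp (Real.log x / 2) ^ 2 := pow_le_pow_left₀ h0 h2 2
    _ = x := h3

/-- from the bound for `α` and `ω` to the bound for the maximum -/
lemma to_max {n a w C : ℝ} (hC : 1 ≤ C) (hn : 1 ≤ n) (ha : 1 ≤ a) (hw : 1 ≤ w) (hW : n ≤ a ^ 2 * w)
    (h : n * Real.log a ^ 2 ≤ C * w * a ^ 2) : n * Real.log n ^ 2 ≤ 36 * C * max a w ^ 3 := by
  set m := max a w with hm
  have ham : a ≤ m := le_max_left _ _
  have hwm : w ≤ m := le_max_right _ _
  have hm1 : 1 ≤ m := ha.trans ham
  have h1 : n ≤ m ^ 3 := by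
    calc n ≤ a ^ 2 * w := hW
      _ ≤ m ^ 2 * m := mul_le_mul (pow_le_pow_left₀ (by linarith) ham 2) hwm (by linarith) (by positivity)
      _ = m ^ 3 := by ring
  have h2 : Real.log n ≤ 3 * Real.log m := by
    have := Real.log_le_log (by linarith) h1
    rw [Real.log_pow] at this
    push_cast at this
    exact this
  have h3 : Real.log n ^ 2 ≤ 9 * Real.log m ^ 2 := by
    have := pow_le_pow_left₀ (Real.log_nonneg hn) h2 2
    nlinarith
  have h4 : n * Real.log m ^ 2 ≤ 4 * C * m ^ 3 := by
    by_cases hcase : m ≤ a ^ 2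
    · have h5 : Real.log m ≤ 2 * Real.log a := by
        have := Real.log_le_log (by linarith) hcase
        rw [Real.log_pow] at this
        push_cast at this
        exact this
      have h6 : Real.log m ^ 2 ≤ 4 * Real.log a ^ 2 := by
        have := pow_le_pow_left₀ (Real.log_nonneg hm1) h5 2
        nlinarith
      have h7 : w * a ^ 2 ≤ m ^ 3 := by
        calc w * a ^ 2 ≤ m * m ^ 2 := mul_le_mul hwm (pow_le_pow_left₀ (by linarith) ham 2)
              (by positivity) (by linarith)
          _ = m ^ 3 := by ring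
      nlinarith [mul_le_mul_of_nonneg_left h6 (show 0 ≤ n by linarith)]
    · push Not at hcase
      have h5 : n ≤ m * m := by
        calc n ≤ a ^ 2 * w := hW
          _ ≤ m * m := mul_le_mul hcase.le hwm (by linarith) (by linarith)
      have h6 := log_sq_le hm1
      have h7 : n * Real.log m ^ 2 ≤ (m * m) * m := mul_le_mul h5 h6 (sq_nonneg _) (by positivity)
      have h8 : (m * m) * m = m ^ 3 := by ring
      have h9 : 0 ≤ m ^ 3 := by positivity
      nlinarith
  calc n * Real.log n ^ 2 ≤ n * (9 * Real.log m ^ 2) := mul_le_mul_of_nonneg_left h3 (by linarith)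
    _ = 9 * (n * Real.log m ^ 2) := by ring
    _ ≤ 9 * (4 * C * m ^ 3) := by linarith
    _ = _ := by ring

/-- the final form for the 4-cycle -/
theorem four_final {V : Type*} [Fintype V] (G : SimpleGraph V)
    (h : IsEmpty (SimpleGraph.cycleGraph 4 ↪g G)) :
    (Fintype.card V : ℝ) * Real.log G.indepNum ^ 2 ≤ 11796480 * G.cliqueNum * (G.indepNum : ℝ) ^ 2 ∧
    (Fintype.card V : ℝ) * Real.log (Fintype.card V) ^ 2 ≤
      424673280 * max (G.indepNum : ℝ) G.cliqueNum ^ 3 := by
  classical
  have hG := noC4_of h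
  set n := Fintype.card V with hn
  set a := G.indepNum with ha
  set w := G.cliqueNum with hw
  rcases Nat.eq_zero_or_pos n with h0 | hnpos
  · rw [h0]
    simp only [Nat.cast_zero, zero_mul]
    constructor
    · positivity
    · have : (0 : ℝ) ≤ max (a : ℝ) w := le_max_of_le_left (Nat.cast_nonneg a)
      positivity
  have hInd : ∀ K : Finset V, Ind G K → K.card ≤ a := by
    intro K hK
    apply SimpleGraph.IsIndepSet.card_le_indepNum
    intro x hx y hy _
    exact hK x hx y hy
  have hCl : ClLe G w := fun K hK => SimpleGraph.IsClique.card_le_cliqueNum (tc := hK)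
  have hne : Nonempty V := Fintype.card_pos_iff.1 hnpos
  obtain ⟨v⟩ := hne
  have ha1 : 1 ≤ a := by
    have := hInd {v} (Ind_singleton v)
    rwa [Finset.card_singleton] at this
  have hw1 : 1 ≤ w := by
    have := hCl {v} (by simp)
    rwa [Finset.card_singleton] at this
  -- Wagon's bound
  have hW : n ≤ a * a * w := by
    obtain ⟨I, hIm, hImax⟩ := Finset.exists_max_image (fam G (Finset.univ : Finset V)) Finset.card
      ⟨∅, mem_fam.2 ⟨Finset.empty_subset _, Ind_empty⟩⟩
    obtain ⟨hIB, hI⟩ := mem_fam.1 hIm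
    have := wagon hG hCl Finset.univ hIB hI (fun K hK hK' => hImax K (mem_fam.2 ⟨hK, hK'⟩))
    rw [Finset.card_univ] at this
    exact this.trans (Nat.mul_le_mul_right w (Nat.mul_le_mul (hInd I hI) (hInd I hI)))
  have hWr : (n : ℝ) ≤ (a : ℝ) ^ 2 * w := by
    have : (n : ℝ) ≤ (a : ℝ) * a * w := by exact_mod_cast hW
    linarith [this, show (a : ℝ) * a * w = (a : ℝ) ^ 2 * w by ring]
  have ha1r : (1 : ℝ) ≤ a := by exact_mod_cast ha1
  have hw1r : (1 : ℝ) ≤ w := by exact_mod_cast hw1
  have hnr : (1 : ℝ) ≤ n := by exact_mod_cast hnpos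
  have hlsq := log_sq_le ha1r
  have hla : 0 ≤ Real.log a := Real.log_nonneg ha1r
  have main : (n : ℝ) * Real.log a ^ 2 ≤ 11796480 * w * (a : ℝ) ^ 2 := by
    have hwa : (0 : ℝ) ≤ w * (a : ℝ) ^ 2 := by positivity
    by_cases h25 : (a : ℝ) < 25
    · have h1 : Real.log a ^ 2 ≤ 25 := hlsq.trans h25.le
      have h2 : (n : ℝ) * Real.log a ^ 2 ≤ ((a : ℝ) ^ 2 * w) * 25 := mul_le_mul hWr h1 (sq_nonneg _) (by positivity)
      linarith
    · push Not at h25
      by_cases hcase : (n : ℝ) ≤ a * w
      · have h2 : (n : ℝ) * Real.log a ^ 2 ≤ (a * w) * a := mul_le_mul hcase hlsq (sq_nonneg _) (by positivity)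
        linarith
      · push Not at hcase
        have h5 : 5 * w ≤ n := by
          have : (5 : ℝ) * w ≤ n := by nlinarith
          exact_mod_cast this
        have hcore := four_core hG hCl hw1 hInd h5
        have h6 : Real.log a ≤ 2 * Real.log ((n : ℝ) / (5 * w)) := by
          have h7 : (a : ℝ) ≤ ((n : ℝ) / (5 * w)) ^ 2 := by
            have h8 : (a : ℝ) / 5 ≤ n / (5 * w) := by
              rw [le_div_iff₀ (by positivity)]
              nlinarith
            have h9 : ((a : ℝ) / 5) ^ 2 ≤ ((n : ℝ) / (5 * w)) ^ 2 := pow_le_pow_left₀ (by positivity) h8 2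
            nlinarith
          have := Real.log_le_log (by linarith) h7
          rw [Real.log_pow] at this
          push_cast at this
          exact this
        have h10 : Real.log a ^ 2 ≤ 4 * Real.log ((n : ℝ) / (5 * w)) ^ 2 := by
          have := pow_le_pow_left₀ hla h6 2
          nlinarith
        have h11 := mul_le_mul_of_nonneg_left h10 (show (0 : ℝ) ≤ n by linarith)
        linarith
  refine ⟨main, ?_⟩
  have := to_max (C := 11796480) (by norm_num) hnr ha1r hw1r hWr main
  linarith

end Pool.Agent.C4D
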