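import Pool.Agent.C4D.Four

/-!
# The bound for graphs without induced 4-cycle
-/

set_option autoImplicit false
set_option linter.unusedSectionVars false

open Finset

namespace Pool.Agent.C4D

variable {V : Type*} [DecidableEq V] {G : SimpleGraph V} [DecidableRel G.Adj]

/-- `∑ (1+l)^{-(d+1)} ≥ |A| / 12` if half of the degrees are at most `1 / l`. -/
lemma half_sum {l : ℝ} (hl0 : 0 < l) (hl1 : l ≤ 1) (A : Finset V)
    (h : 2 * (A.filter (fun x => 1 / l < (A.filter (G.Adj x)).card)).card ≤ A.card) :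
    1 / 12 * (A.card : ℝ) ≤ ∑ x ∈ A, ((1 + l) ^ ((A.filter (G.Adj x)).card + 1))⁻¹ := by
  set B := A.filter (fun x => ¬ (1 / l < ((A.filter (G.Adj x)).card : ℝ))) with hB
  have hBc : (A.card : ℝ) / 2 ≤ B.card := by
    have h1 := Finset.card_filter_add_card_filter_not (s := A) (fun x => 1 / l < ((A.filter (G.Adj x)).card : ℝ))
    have h2 : A.card ≤ 2 * B.card := by
      rw [hB]
      omega
    have h3 : (A.card : ℝ) ≤ 2 * B.card := by exact_mod_cast h2
    linarith
  have hx : ∀ x ∈ B, (1 / 6 : ℝ) ≤ ((1 + l) ^ ((A.filter (G.Adj x)).card + 1))⁻¹ := by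
    intro x hx
    have h1 := (Finset.mem_filter.1 hx).2
    push Not at h1
    rw [le_inv_comm₀ (by norm_num) (by positivity)]
    have h2 : (1 + l) ≤ Real.exp l := by linarith [Real.add_one_le_exp l]
    have h3 : (1 + l) ^ (A.filter (G.Adj x)).card ≤ Real.exp 1 := by
      calc (1 + l) ^ (A.filter (G.Adj x)).card ≤ Real.exp l ^ (A.filter (G.Adj x)).card :=
            pow_le_pow_left₀ (by linarith) h2 _
        _ = Real.exp ((A.filter (G.Adj x)).card * l) := by rw [← Real.exp_nat_mul]
        _ ≤ Real.exp 1 := by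
            apply Real.exp_le_exp.2
            rw [le_div_iff₀ hl0] at h1
            exact h1
    have h4 : Real.exp 1 ≤ 3 := by linarith [Real.exp_one_lt_d9]
    rw [pow_succ]
    have h5 : 0 ≤ (1 + l) ^ (A.filter (G.Adj x)).card := by positivity
    have h6 : ((1 : ℝ) / 6)⁻¹ = 6 := by norm_num
    rw [h6]
    nlinarith
  calc 1 / 12 * (A.card : ℝ) ≤ B.card * (1 / 6 : ℝ) := by linarith
    _ = ∑ _x ∈ B, (1 / 6 : ℝ) := by rw [Finset.sum_const, nsmul_eq_mul]
    _ ≤ ∑ x ∈ B, ((1 + l) ^ ((A.filter (G.Adj x)).card + 1))⁻¹ := Finset.sum_le_sum hx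
    _ ≤ ∑ x ∈ A, ((1 + l) ^ ((A.filter (G.Adj x)).card + 1))⁻¹ :=
        Finset.sum_le_sum_of_subset_of_nonneg (Finset.filter_subset _ _)
          (fun x _ _ => by positivity)

/-- main inequality -/
lemma four_core [Fintype V] (hG : NoC4 G) {w a : ℕ} (hw : ClLe G w) (hw1 : 1 ≤ w)
    (ha : ∀ K : Finset V, Ind G K → K.card ≤ a) (hn : 5 * w ≤ Fintype.card V) :
    (Fintype.card V : ℝ) * Real.log ((Fintype.card V : ℝ) / (5 * w)) ^ 2 ≤ 2949120 * w * (a : ℝ) ^ 2 := by
  set n := Fintype.card V with hndef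
  have hw1' : (1 : ℝ) ≤ w := by exact_mod_cast hw1
  have hn' : 5 * (w : ℝ) ≤ n := by exact_mod_cast hn
  have hn0 : (0 : ℝ) < n := by linarith
  set D := Real.sqrt (5 * w * n) with hD
  have hD2 : D ^ 2 = 5 * w * n := Real.sq_sqrt (by positivity)
  have hD5 : 5 * (w : ℝ) ≤ D := by
    rw [hD]
    apply Real.le_sqrt_of_sq_le
    nlinarith
  have hD0 : 0 < D := by linarith
  set s := Real.sqrt (5 * w * D) with hs
  have hs2 : s ^ 2 = 5 * w * D := Real.sq_sqrt (by positivity)
  have hs1 : 1 ≤ s := by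
    rw [hs]
    apply Real.le_sqrt_of_sq_le
    nlinarith
  have hsD : s ≤ D := by
    rw [hs]
    apply Real.sqrt_le_iff.2
    exact ⟨hD0.le, by nlinarith⟩
  have hs0 : 0 < s := by linarith
  have hUhalf := half hG hw (Finset.univ : Finset V) hD0.le (by
    rw [Finset.card_univ, hD2])
  set U := (Finset.univ : Finset V).filter (fun x => ¬ (D < ((Finset.univ.filter (G.Adj x)).card : ℝ)))
    with hU
  have hUc : (n : ℝ) / 2 ≤ U.card := by
    have h1 := Finset.card_filter_add_card_filter_not (s := (Finset.univ : Finset V))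
      (fun x => D < ((Finset.univ.filter (G.Adj x)).card : ℝ))
    rw [Finset.card_univ] at h1 hUhalf
    have h2 : n ≤ 2 * U.card := by
      rw [hU]
      omega
    have h3 : (n : ℝ) ≤ 2 * U.card := by exact_mod_cast h2
    linarith
  have hdeg : ∀ v ∈ U, ((U.filter (G.Adj v)).card : ℝ) ≤ D := by
    intro v hv
    have h1 := (Finset.mem_filter.1 hv).2
    push Not at h1
    refine le_trans ?_ h1
    exact_mod_cast Finset.card_le_card (Finset.filter_subset_filter _ (Finset.subset_univ U))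
  have hl : (1 : ℝ) / s ≤ 1 := by
    rw [div_le_one hs0]
    exact hs1
  have hlD : 1 ≤ 1 / s * D := by
    rw [one_div, inv_mul_eq_div, le_div_iff₀ hs0]
    linarith
  have key := hc_sparse (G := G) (l := 1 / s) (D := D) (c := 1 / 12) (by positivity) hl hlD (by norm_num)
    (by norm_num) U hdeg (fun v hv A hA => by
      refine half_sum (by positivity) hl A ?_
      rw [one_div_one_div]
      refine half hG hw A hs0.le ?_
      rw [hs2]
      have h1 : (A.card : ℝ) ≤ D := by
        refine le_trans ?_ (hdeg v hv)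
        exact_mod_cast Finset.card_le_card hA
      exact mul_le_mul_of_nonneg_left h1 (by positivity)) (a := a) (fun K _ hK => ha K hK)
  -- log (D / s) = log (n / 5w) / 4
  have hlog : Real.log (1 / s * D) = 1 / 4 * Real.log (n / (5 * w)) := by
    have h1 : (1 / s * D) ^ 4 = n / (5 * w) := by
      have h2 : s ^ 4 = (5 * w * D) ^ 2 := by
        rw [← hs2]
        ring
      have h3 : (1 / s * D) ^ 4 = D ^ 4 / s ^ 4 := by
        rw [mul_pow, div_pow]
        ring
      rw [h3, h2]
      have h4 : D ^ 4 = (5 * w * n) * D ^ 2 := by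
        rw [← hD2]
        ring
      rw [h4]
      have hDne : D ≠ 0 := hD0.ne'
      have hwne : (w : ℝ) ≠ 0 := by linarith
      field_simp
    rw [← h1, Real.log_pow]
    push_cast
    ring
  rw [hlog] at key
  have hlog0 : 0 ≤ Real.log ((n : ℝ) / (5 * w)) := by
    apply Real.log_nonneg
    rw [le_div_iff₀ (by positivity)]
    linarith
  have h1 : (n : ℝ) * Real.log (n / (5 * w)) ≤ 768 * D * a := by
    have h2 : 1 / 12 / 4 * (1 / 4 * Real.log ((n : ℝ) / (5 * w))) * ((n : ℝ) / 2) ≤
        1 / 12 / 4 * (1 / 4 * Real.log ((n : ℝ) / (5 * w))) * U.card :=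
      mul_le_mul_of_nonneg_left hUc (by positivity)
    linarith
  have h2 : ((n : ℝ) * Real.log (n / (5 * w))) ^ 2 ≤ (768 * D * a) ^ 2 :=
    pow_le_pow_left₀ (by positivity) h1 2
  have h3 : (768 * D * a) ^ 2 = n * (2949120 * w * (a : ℝ) ^ 2) := by
    rw [mul_pow, mul_pow, hD2]
    ring
  rw [h3, mul_pow, sq (n : ℝ), mul_assoc] at h2
  exact le_of_mul_le_mul_left h2 hn0

end Pool.Agent.C4D
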