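import Mathlib

/-!
# The hard-core model on a graph with sparse neighbourhoods
-/

set_option autoImplicit false
set_option linter.unusedSectionVars false

open Finset

namespace Pool.Agent.C4D

variable {V : Type*} [DecidableEq V] (G : SimpleGraph V) [DecidableRel G.Adj]

/-- `K` is independent -/
def Ind (K : Finset V) : Prop := ∀ x ∈ K, ∀ y ∈ K, ¬ G.Adj x y

instance : DecidablePred (Ind G) := fun K => by
  unfold Ind
  infer_instance

/-- the independent subsets of `A` -/
def fam (A : Finset V) : Finset (Finset V) := A.powerset.filter (Ind G)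

/-- the vertices of `A` without neighbour in `J` -/
def free (A J : Finset V) : Finset V := A.filter (fun x => ∀ y ∈ J, ¬ G.Adj y x)

/-- the partition function -/
noncomputable def hi (l : ℝ) (A : Finset V) : ℝ := ∑ K ∈ fam G A, l ^ K.card

/-- the weighted sum of the sizes -/
noncomputable def hs (l : ℝ) (A : Finset V) : ℝ := ∑ K ∈ fam G A, l ^ K.card * K.card

variable {G}

lemma mem_fam {A K : Finset V} : K ∈ fam G A ↔ K ⊆ A ∧ Ind G K := by
  unfold fam
  rw [Finset.mem_filter, Finset.mem_powerset]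

lemma mem_free {A J : Finset V} {x : V} : x ∈ free G A J ↔ x ∈ A ∧ ∀ y ∈ J, ¬ G.Adj y x := by
  unfold free
  rw [Finset.mem_filter]

lemma Ind.mono {K L : Finset V} (h : Ind G L) (hKL : K ⊆ L) : Ind G K :=
  fun x hx y hy => h x (hKL hx) y (hKL hy)

lemma Ind_empty : Ind G (∅ : Finset V) := fun x hx => by simp at hx

lemma fam_union {S T : Finset V} (hST : Disjoint S T) (F : Finset V → ℝ) :
    ∑ I ∈ fam G (S ∪ T), F I = ∑ J ∈ fam G S, ∑ K ∈ fam G (free G T J), F (J ∪ K) := by
  rw [Finset.sum_sigma']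
  refine Finset.sum_bij' (fun I _ => ⟨I ∩ S, I ∩ T⟩) (fun p _ => p.1 ∪ p.2) ?_ ?_ ?_ ?_ ?_
  · intro I hI
    rw [mem_fam] at hI
    rw [Finset.mem_sigma]
    refine ⟨mem_fam.2 ⟨Finset.inter_subset_right, hI.2.mono Finset.inter_subset_left⟩,
      mem_fam.2 ⟨fun x hx => mem_free.2 ⟨Finset.inter_subset_right hx, fun y hy => ?_⟩,
        hI.2.mono Finset.inter_subset_left⟩⟩
    exact hI.2 y (Finset.inter_subset_left hy) x (Finset.inter_subset_left hx)
  · rintro ⟨J, K⟩ hp
    rw [Finset.mem_sigma] at hp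
    obtain ⟨h1, h2⟩ := hp
    rw [mem_fam] at h1 h2
    simp only at h1 h2 ⊢
    have hKT : K ⊆ T := fun x hx => (mem_free.1 (h2.1 hx)).1
    refine mem_fam.2 ⟨Finset.union_subset_union h1.1 hKT, ?_⟩
    intro x hx y hy hxy
    rcases Finset.mem_union.1 hx with hx | hx <;> rcases Finset.mem_union.1 hy with hy | hy
    · exact h1.2 x hx y hy hxy
    · exact (mem_free.1 (h2.1 hy)).2 x hx hxy
    · exact (mem_free.1 (h2.1 hx)).2 y hy hxy.symm
    · exact h2.2 x hx y hy hxy
  · intro I hI
    rw [mem_fam] at hI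
    simp only
    rw [← Finset.inter_union_distrib_left, Finset.inter_eq_left.2 hI.1]
  · rintro ⟨J, K⟩ hp
    rw [Finset.mem_sigma] at hp
    obtain ⟨h1, h2⟩ := hp
    rw [mem_fam] at h1 h2
    simp only at h1 h2 ⊢
    have hKT : K ⊆ T := fun x hx => (mem_free.1 (h2.1 hx)).1
    have e1 : (J ∪ K) ∩ S = J := by
      ext x
      simp only [Finset.mem_inter, Finset.mem_union]
      constructor
      · rintro ⟨h3 | h3, h4⟩
        · exact h3
        · exact absurd (hKT h3) (Finset.disjoint_left.1 hST h4)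
      · intro h3
        exact ⟨Or.inl h3, h1.1 h3⟩
    have e2 : (J ∪ K) ∩ T = K := by
      ext x
      simp only [Finset.mem_inter, Finset.mem_union]
      constructor
      · rintro ⟨h3 | h3, h4⟩
        · exact absurd h4 (Finset.disjoint_left.1 hST (h1.1 h3))
        · exact h3
      · intro h3
        exact ⟨Or.inr h3, hKT h3⟩
    rw [e1, e2]
  · intro I hI
    rw [mem_fam] at hI
    simp only
    rw [← Finset.inter_union_distrib_left, Finset.inter_eq_left.2 hI.1]

lemma fam_empty : fam G (∅ : Finset V) = {∅} := by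
  ext K
  rw [mem_fam, Finset.mem_singleton, Finset.subset_empty]
  constructor
  · exact fun h => h.1
  · rintro rfl
    exact ⟨rfl, Ind_empty⟩

lemma Ind_singleton (x : V) : Ind G ({x} : Finset V) := by
  intro y hy z hz
  rw [Finset.mem_singleton] at hy hz
  rw [hy, hz]
  exact G.loopless.irrefl x

lemma fam_singleton (x : V) : fam G ({x} : Finset V) = {∅, {x}} := by
  ext K
  rw [mem_fam, Finset.mem_insert, Finset.mem_singleton, Finset.subset_singleton_iff]
  constructor
  · exact fun h => h.1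
  · rintro (rfl | rfl)
    · exact ⟨Or.inl rfl, Ind_empty⟩
    · exact ⟨Or.inr rfl, Ind_singleton x⟩

lemma fam_insert {x : V} {A : Finset V} (hx : x ∉ A) (F : Finset V → ℝ) :
    ∑ I ∈ fam G (insert x A), F I =
      ∑ I ∈ fam G A, F I + ∑ K ∈ fam G (A.filter (fun y => ¬ G.Adj x y)), F (insert x K) := by
  have h := fam_union (G := G) (S := {x}) (T := A) (Finset.disjoint_singleton_left.2 hx) F
  rw [← Finset.insert_eq] at h
  rw [h, fam_singleton, Finset.sum_pair (Finset.singleton_nonempty x).ne_empty.symm]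
  congr 1
  · have : free G A ∅ = A := by
      unfold free
      simp
    rw [this]
    refine Finset.sum_congr rfl (fun K _ => by rw [Finset.empty_union])
  · have : free G A {x} = A.filter (fun y => ¬ G.Adj x y) := by
      unfold free
      simp
    rw [this]
    refine Finset.sum_congr rfl (fun K _ => by rw [← Finset.insert_eq])

lemma fam_mono {A B : Finset V} (h : A ⊆ B) : fam G A ⊆ fam G B := fun K hK => by
  rw [mem_fam] at hK ⊢
  exact ⟨hK.1.trans h, hK.2⟩

variable {l : ℝ}

lemma hi_mono (hl : 0 ≤ l) {A B : Finset V} (h : A ⊆ B) : hi G l A ≤ hi G l B :=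
  Finset.sum_le_sum_of_subset_of_nonneg (fam_mono h) (fun _ _ _ => pow_nonneg hl _)

lemma hi_empty : hi G l (∅ : Finset V) = 1 := by
  unfold hi
  rw [fam_empty]
  simp

lemma one_le_hi (hl : 0 ≤ l) (A : Finset V) : 1 ≤ hi G l A := by
  rw [← hi_empty (G := G) (l := l)]
  exact hi_mono hl (Finset.empty_subset A)

lemma hs_nonneg (hl : 0 ≤ l) (A : Finset V) : 0 ≤ hs G l A :=
  Finset.sum_nonneg (fun _ _ => mul_nonneg (pow_nonneg hl _) (Nat.cast_nonneg _))

lemma hi_insert {x : V} {A : Finset V} (hx : x ∉ A) :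
    hi G l (insert x A) = hi G l A + l * hi G l (A.filter (fun y => ¬ G.Adj x y)) := by
  unfold hi
  rw [fam_insert hx, Finset.mul_sum]
  congr 1
  refine Finset.sum_congr rfl (fun K hK => ?_)
  have : x ∉ K := fun h => hx (Finset.filter_subset _ _ ((mem_fam.1 hK).1 h))
  rw [Finset.card_insert_of_notMem this, pow_succ]
  ring

lemma hi_insert_le (hl : 0 ≤ l) (x : V) (A : Finset V) : hi G l (insert x A) ≤ (1 + l) * hi G l A := by
  by_cases hx : x ∈ A
  · rw [Finset.insert_eq_of_mem hx]
    have := one_le_hi (G := G) hl A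
    nlinarith
  · rw [hi_insert hx]
    have := hi_mono (G := G) hl (Finset.filter_subset (fun y => ¬ G.Adj x y) A)
    nlinarith

lemma hi_union_le (hl : 0 ≤ l) (A B : Finset V) : hi G l (A ∪ B) ≤ (1 + l) ^ B.card * hi G l A := by
  induction B using Finset.induction_on with
  | empty => simp
  | insert x B hx ih =>
    rw [Finset.union_insert, Finset.card_insert_of_notMem hx, pow_succ]
    calc hi G l (insert x (A ∪ B)) ≤ (1 + l) * hi G l (A ∪ B) := hi_insert_le hl _ _
      _ ≤ (1 + l) * ((1 + l) ^ B.card * hi G l A) := mul_le_mul_of_nonneg_left ih (by linarith)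
      _ = _ := by ring

lemma hi_le (hl : 0 ≤ l) (A : Finset V) : hi G l A ≤ (1 + l) ^ A.card := by
  have := hi_union_le (G := G) hl ∅ A
  rw [Finset.empty_union, hi_empty, mul_one] at this
  exact this

/-- the independent sets through `x` -/
lemma sum_through {x : V} {A : Finset V} (hx : x ∈ A) :
    ∑ K ∈ fam G A, (if x ∈ K then l ^ K.card else 0) =
      l * hi G l ((A.erase x).filter (fun y => ¬ G.Adj x y)) := by
  have hx' : x ∉ A.erase x := Finset.notMem_erase x A
  have h := fam_insert (G := G) hx' (fun K => if x ∈ K then l ^ K.card else 0)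
  rw [Finset.insert_erase hx] at h
  rw [h]
  have h0 : ∑ K ∈ fam G (A.erase x), (if x ∈ K then l ^ K.card else 0) = 0 := by
    refine Finset.sum_eq_zero (fun K hK => ?_)
    rw [if_neg]
    exact fun h => hx' ((mem_fam.1 hK).1 h)
  rw [h0, zero_add]
  unfold hi
  rw [Finset.mul_sum]
  refine Finset.sum_congr rfl (fun K hK => ?_)
  have : x ∉ K := fun h => hx' (Finset.filter_subset _ _ ((mem_fam.1 hK).1 h))
  rw [if_pos (Finset.mem_insert_self x K), Finset.card_insert_of_notMem this, pow_succ]
  ring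

lemma hs_eq (A : Finset V) :
    hs G l A = ∑ x ∈ A, l * hi G l ((A.erase x).filter (fun y => ¬ G.Adj x y)) := by
  unfold hs
  have h1 : ∀ K ∈ fam G A, l ^ K.card * (K.card : ℝ) = ∑ x ∈ A, (if x ∈ K then l ^ K.card else 0) := by
    intro K hK
    rw [← Finset.sum_filter, Finset.sum_const, nsmul_eq_mul]
    have : A.filter (fun x => x ∈ K) = K := by
      ext x
      rw [Finset.mem_filter]
      exact ⟨fun h => h.2, fun h => ⟨(mem_fam.1 hK).1 h, h⟩⟩
    rw [this, mul_comm]
  rw [Finset.sum_congr rfl h1, Finset.sum_comm]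
  exact Finset.sum_congr rfl (fun x hx => sum_through hx)

/-- lower bound for the expected size -/
lemma hs_ge (hl : 0 ≤ l) (A : Finset V) :
    (∑ x ∈ A, l * ((1 + l) ^ ((A.filter (G.Adj x)).card + 1))⁻¹) * hi G l A ≤ hs G l A := by
  rw [hs_eq, Finset.sum_mul]
  refine Finset.sum_le_sum (fun x hx => ?_)
  rw [mul_assoc]
  refine mul_le_mul_of_nonneg_left ?_ hl
  have h1 : A ⊆ ((A.erase x).filter (fun y => ¬ G.Adj x y)) ∪ insert x (A.filter (G.Adj x)) := by
    intro y hy
    rw [Finset.mem_union, Finset.mem_filter, Finset.mem_erase, Finset.mem_insert, Finset.mem_filter]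
    by_cases h2 : y = x
    · exact Or.inr (Or.inl h2)
    · by_cases h3 : G.Adj x y
      · exact Or.inr (Or.inr ⟨hy, h3⟩)
      · exact Or.inl ⟨⟨h2, hy⟩, h3⟩
  have h4 : x ∉ A.filter (G.Adj x) := by
    rw [Finset.mem_filter]
    exact fun h => G.loopless.irrefl x h.2
  have h5 := (hi_mono (G := G) hl h1).trans (hi_union_le hl _ _)
  rw [Finset.card_insert_of_notMem h4] at h5
  rw [inv_mul_le_iff₀ (by positivity)]
  exact h5


/-- splitting along the closed neighbourhood of `v` -/
lemma fam_split {U : Finset V} {v : V} (hv : v ∈ U) (F : Finset V → ℝ) :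
    ∑ I ∈ fam G U, F I = ∑ J ∈ fam G (U \ insert v (U.filter (G.Adj v))),
      (∑ K ∈ fam G (free G (U.filter (G.Adj v)) J), F (J ∪ K) + F (J ∪ {v})) := by
  set N := U.filter (G.Adj v) with hN
  have hTU : insert v N ⊆ U := Finset.insert_subset hv (Finset.filter_subset _ _)
  have hU : (U \ insert v N) ∪ insert v N = U := Finset.sdiff_union_of_subset hTU
  have hdis : Disjoint (U \ insert v N) (insert v N) := Finset.sdiff_disjoint
  have h := fam_union (G := G) hdis F
  rw [hU] at h
  rw [h]
  refine Finset.sum_congr rfl (fun J hJ => ?_)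
  have hvN : v ∉ N := by
    rw [hN, Finset.mem_filter]
    exact fun h => G.loopless.irrefl v h.2
  have hfr : free G (insert v N) J = insert v (free G N J) := by
    ext x
    rw [Finset.mem_insert, mem_free, mem_free, Finset.mem_insert]
    constructor
    · rintro ⟨h1 | h1, h2⟩
      · exact Or.inl h1
      · exact Or.inr ⟨h1, h2⟩
    · rintro (h1 | h1)
      · refine ⟨Or.inl h1, fun y hy hadj => ?_⟩
        have h3 := Finset.mem_sdiff.1 ((mem_fam.1 hJ).1 hy)
        rw [h1] at hadj
        exact h3.2 (Finset.mem_insert_of_mem (Finset.mem_filter.2 ⟨h3.1, hadj.symm⟩))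
      · exact ⟨Or.inr h1.1, h1.2⟩
  have hvA : v ∉ free G N J := fun h => hvN (mem_free.1 h).1
  rw [hfr, fam_insert hvA]
  congr 1
  have hemp : (free G N J).filter (fun y => ¬ G.Adj v y) = ∅ := by
    rw [Finset.filter_eq_empty_iff]
    intro x hx
    have := (mem_free.1 hx).1
    rw [hN, Finset.mem_filter] at this
    exact fun h => h this.2
  rw [hemp, fam_empty, Finset.sum_singleton]
  rw [insert_empty_eq]

/-- the hard-core argument: a local inequality gives a lower bound for the independence number -/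
theorem hc_main {D κ : ℝ} (hl : 0 < l) (U : Finset V)
    (hD : 0 ≤ D) (hdeg : ∀ v ∈ U, ((U.filter (G.Adj v)).card : ℝ) ≤ D)
    (hloc : ∀ v ∈ U, ∀ A ⊆ U.filter (G.Adj v), κ * (l + hi G l A) ≤ l * D + hs G l A)
    {a : ℕ} (ha : ∀ K ⊆ U, Ind G K → K.card ≤ a) : κ * U.card ≤ 2 * D * a := by
  have key : ∀ v ∈ U, κ * hi G l U ≤ ∑ I ∈ fam G U, l ^ I.card *
      ((if v ∈ I then D else 0) + ((I ∩ U.filter (G.Adj v)).card : ℝ)) := by
    intro v hv
    have hvN : v ∉ U.filter (G.Adj v) := by
      rw [Finset.mem_filter]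
      exact fun h => G.loopless.irrefl v h.2
    have hJ1 : ∀ J ∈ fam G (U \ insert v (U.filter (G.Adj v))), v ∉ J ∧
        Disjoint J (U.filter (G.Adj v)) := by
      intro J hJ
      have h1 := (mem_fam.1 hJ).1
      refine ⟨fun h => ?_, ?_⟩
      · exact (Finset.mem_sdiff.1 (h1 h)).2 (Finset.mem_insert_self _ _)
      · rw [Finset.disjoint_left]
        intro x hx hx'
        exact (Finset.mem_sdiff.1 (h1 hx)).2 (Finset.mem_insert_of_mem hx')
    have e1 : hi G l U = ∑ J ∈ fam G (U \ insert v (U.filter (G.Adj v))),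
        l ^ J.card * (l + hi G l (free G (U.filter (G.Adj v)) J)) := by
      unfold hi
      rw [fam_split hv]
      refine Finset.sum_congr rfl (fun J hJ => ?_)
      obtain ⟨h1, h2⟩ := hJ1 J hJ
      have e2 : (J ∪ {v}).card = J.card + 1 := by
        rw [Finset.card_union_of_disjoint (Finset.disjoint_singleton_right.2 h1),
          Finset.card_singleton]
      have e3 : ∀ K ∈ fam G (free G (U.filter (G.Adj v)) J), l ^ (J ∪ K).card =
          l ^ J.card * l ^ K.card := by
        intro K hK
        have hKN : K ⊆ U.filter (G.Adj v) := fun x hx => (mem_free.1 ((mem_fam.1 hK).1 hx)).1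
        rw [Finset.card_union_of_disjoint (h2.mono_right hKN), pow_add]
      rw [Finset.sum_congr rfl e3, ← Finset.mul_sum, e2, pow_succ]
      ring
    have e4 : ∑ I ∈ fam G U, l ^ I.card *
        ((if v ∈ I then D else 0) + ((I ∩ U.filter (G.Adj v)).card : ℝ)) =
        ∑ J ∈ fam G (U \ insert v (U.filter (G.Adj v))),
          l ^ J.card * (l * D + hs G l (free G (U.filter (G.Adj v)) J)) := by
      rw [fam_split hv]
      refine Finset.sum_congr rfl (fun J hJ => ?_)
      obtain ⟨h1, h2⟩ := hJ1 J hJ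
      have e2 : (J ∪ {v}).card = J.card + 1 := by
        rw [Finset.card_union_of_disjoint (Finset.disjoint_singleton_right.2 h1),
          Finset.card_singleton]
      have e5 : (J ∪ {v}) ∩ U.filter (G.Adj v) = ∅ := by
        rw [← Finset.disjoint_iff_inter_eq_empty, Finset.disjoint_union_left]
        exact ⟨h2, Finset.disjoint_singleton_left.2 hvN⟩
      have e3 : ∀ K ∈ fam G (free G (U.filter (G.Adj v)) J), l ^ (J ∪ K).card *
          ((if v ∈ J ∪ K then D else 0) + (((J ∪ K) ∩ U.filter (G.Adj v)).card : ℝ)) =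
          l ^ J.card * (l ^ K.card * K.card) := by
        intro K hK
        have hKN : K ⊆ U.filter (G.Adj v) := fun x hx => (mem_free.1 ((mem_fam.1 hK).1 hx)).1
        have hvK : v ∉ J ∪ K := by
          rw [Finset.mem_union]
          rintro (h | h)
          · exact h1 h
          · exact hvN (hKN h)
        have e6 : (J ∪ K) ∩ U.filter (G.Adj v) = K := by
          rw [Finset.union_inter_distrib_right, Finset.disjoint_iff_inter_eq_empty.1 h2,
            Finset.empty_union, Finset.inter_eq_left.2 hKN]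
        rw [if_neg hvK, e6, Finset.card_union_of_disjoint (h2.mono_right hKN), pow_add]
        ring
      rw [Finset.sum_congr rfl e3, ← Finset.mul_sum, e2, e5,
        if_pos (Finset.mem_union_right _ (Finset.mem_singleton_self v)), Finset.card_empty, pow_succ]
      unfold hs
      push_cast
      ring
    rw [e1, e4, Finset.mul_sum]
    refine Finset.sum_le_sum (fun J _ => ?_)
    have h3 := hloc v hv (free G (U.filter (G.Adj v)) J) (fun x hx => (mem_free.1 hx).1)
    have h4 : 0 ≤ l ^ J.card := pow_nonneg hl.le _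
    nlinarith
  have hsum := Finset.sum_le_sum key
  rw [Finset.sum_const, nsmul_eq_mul, Finset.sum_comm] at hsum
  have hbd : ∀ I ∈ fam G U, ∑ v ∈ U, l ^ I.card *
      ((if v ∈ I then D else 0) + ((I ∩ U.filter (G.Adj v)).card : ℝ)) ≤ l ^ I.card * (2 * D * a) := by
    intro I hI
    obtain ⟨hIU, hInd⟩ := mem_fam.1 hI
    rw [← Finset.mul_sum]
    refine mul_le_mul_of_nonneg_left ?_ (pow_nonneg hl.le _)
    rw [Finset.sum_add_distrib]
    have hIa : (I.card : ℝ) ≤ a := by exact_mod_cast ha I hIU hInd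
    have h1 : ∑ v ∈ U, (if v ∈ I then D else 0) = I.card * D := by
      rw [← Finset.sum_filter, Finset.sum_const, nsmul_eq_mul]
      have : U.filter (fun x => x ∈ I) = I := by
        ext x
        rw [Finset.mem_filter]
        exact ⟨fun h => h.2, fun h => ⟨hIU h, h⟩⟩
      rw [this]
    have h2 : ∑ v ∈ U, ((I ∩ U.filter (G.Adj v)).card : ℝ) =
        ∑ x ∈ I, ((U.filter (G.Adj x)).card : ℝ) := by
      have h3 : ∀ v ∈ U, ((I ∩ U.filter (G.Adj v)).card : ℝ) = ∑ x ∈ I, (if G.Adj v x then (1 : ℝ) else 0) := by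
        intro v _
        rw [← Finset.sum_filter, Finset.sum_const, nsmul_eq_mul, mul_one]
        congr 2
        ext x
        rw [Finset.mem_inter, Finset.mem_filter, Finset.mem_filter]
        exact ⟨fun h => ⟨h.1, h.2.2⟩, fun h => ⟨h.1, hIU h.1, h.2⟩⟩
      rw [Finset.sum_congr rfl h3, Finset.sum_comm]
      refine Finset.sum_congr rfl (fun x _ => ?_)
      rw [← Finset.sum_filter, Finset.sum_const, nsmul_eq_mul, mul_one]
      congr 2
      ext y
      rw [Finset.mem_filter, Finset.mem_filter, G.adj_comm]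
    have h4 : ∑ x ∈ I, ((U.filter (G.Adj x)).card : ℝ) ≤ I.card * D := by
      rw [← nsmul_eq_mul]
      exact Finset.sum_le_card_nsmul _ _ _ (fun x hx => hdeg x (hIU hx))
    rw [h1, h2]
    nlinarith
  have hfin := hsum.trans (Finset.sum_le_sum hbd)
  rw [← Finset.sum_mul] at hfin
  have hpos : 0 < hi G l U := lt_of_lt_of_le one_pos (one_le_hi hl.le U)
  have hz : ∑ I ∈ fam G U, l ^ I.card = hi G l U := rfl
  rw [hz] at hfin
  by_contra hcon
  push Not at hcon
  nlinarith [mul_lt_mul_of_pos_left hcon hpos]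

/-- the numerical part of the local inequality -/
lemma local_num {D c y i s : ℝ} (hl1 : l ≤ 1) (hM : 1 ≤ l * D) (hc0 : 0 < c) (hc1 : c ≤ 1)
    (hi1 : 1 ≤ i) (hiy : i ≤ Real.exp y) (hs : c * y * i ≤ s) (hs0 : 0 ≤ s) :
    c / 4 * Real.log (l * D) * (l + i) ≤ l * D + s := by
  set M := l * D with hMdef
  have hM0 : 0 < M := by linarith
  have hlog0 : 0 ≤ Real.log M := Real.log_nonneg hM
  have hli : l + i ≤ 2 * i := by linarith
  have hci : c / 4 * Real.log M * (l + i) ≤ c / 4 * Real.log M * (2 * i) :=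
    mul_le_mul_of_nonneg_left hli (by positivity)
  refine hci.trans ?_
  by_cases h : i ≤ Real.sqrt M
  · have h1 : Real.log M ≤ 2 * Real.sqrt M := by
      have h2 : Real.log M = 2 * Real.log (Real.sqrt M) := by
        rw [Real.log_sqrt hM0.le]
        ring
      have h3 := Real.log_le_sub_one_of_pos (Real.sqrt_pos.2 hM0)
      rw [h2]
      linarith
    have h4 : Real.sqrt M * Real.sqrt M = M := Real.mul_self_sqrt hM0.le
    have h5 : 0 ≤ Real.sqrt M := Real.sqrt_nonneg M
    have h6 : Real.log M * i ≤ 2 * Real.sqrt M * Real.sqrt M := mul_le_mul h1 h (by linarith) (by linarith)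
    have h7 : c / 4 * Real.log M * (2 * i) = c / 2 * (Real.log M * i) := by ring
    rw [h7]
    have h8 : c / 2 * (Real.log M * i) ≤ 1 / 2 * (Real.log M * i) :=
      mul_le_mul_of_nonneg_right (by linarith) (mul_nonneg hlog0 (by linarith))
    nlinarith
  · push Not at h
    have hi0 : 0 < i := by linarith
    have h1 : Real.log M ≤ 2 * y := by
      have h2 : Real.log (Real.sqrt M) ≤ Real.log i := Real.log_le_log (Real.sqrt_pos.2 hM0) h.le
      rw [Real.log_sqrt hM0.le] at h2
      have h3 : Real.log i ≤ y := by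
        rw [Real.log_le_iff_le_exp hi0]
        exact hiy
      linarith
    have h4 : c / 4 * Real.log M * (2 * i) ≤ c / 4 * (2 * y) * (2 * i) := by
      have := mul_le_mul_of_nonneg_left h1 (show 0 ≤ c / 4 by positivity)
      exact mul_le_mul_of_nonneg_right this (by linarith)
    nlinarith

/-- the hard-core bound for graphs whose neighbourhoods are sparse at scale `1 / l` -/
theorem hc_sparse {D c : ℝ} (hl0 : 0 < l) (hl1 : l ≤ 1) (hM : 1 ≤ l * D) (hc0 : 0 < c) (hc1 : c ≤ 1)
    (U : Finset V) (hdeg : ∀ v ∈ U, ((U.filter (G.Adj v)).card : ℝ) ≤ D)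
    (hsp : ∀ v ∈ U, ∀ A ⊆ U.filter (G.Adj v),
      c * A.card ≤ ∑ x ∈ A, ((1 + l) ^ ((A.filter (G.Adj x)).card + 1))⁻¹)
    {a : ℕ} (ha : ∀ K ⊆ U, Ind G K → K.card ≤ a) :
    c / 4 * Real.log (l * D) * U.card ≤ 2 * D * a := by
  have hD : 0 ≤ D := by
    by_contra h
    push Not at h
    nlinarith
  refine hc_main hl0 U hD hdeg (fun v hv A hA => ?_) ha
  refine local_num (y := l * A.card) hl1 hM hc0 hc1 (one_le_hi hl0.le A) ?_ ?_ (hs_nonneg hl0.le A)
  · refine (hi_le hl0.le A).trans ?_
    have h1 : (1 + l) ≤ Real.exp l := by linarith [Real.add_one_le_exp l]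
    calc (1 + l) ^ A.card ≤ Real.exp l ^ A.card := pow_le_pow_left₀ (by linarith) h1 _
      _ = Real.exp (l * A.card) := by rw [← Real.exp_nat_mul]; ring_nf
  · refine le_trans ?_ (hs_ge hl0.le A)
    have h1 := hsp v hv A hA
    have h2 := one_le_hi (G := G) hl0.le A
    rw [← Finset.mul_sum]
    have h3 : c * (l * A.card) ≤ l * ∑ x ∈ A, ((1 + l) ^ ((A.filter (G.Adj x)).card + 1))⁻¹ := by
      calc c * (l * A.card) = l * (c * A.card) := by ring
        _ ≤ _ := mul_le_mul_of_nonneg_left h1 hl0.le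
    exact mul_le_mul_of_nonneg_right h3 (by linarith)

end Pool.Agent.C4D
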